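import Pool.Agent.Q317.LD.Gen
import Pool.Agent.Q317.ST.Pad

/-!
# The equivariant Beilinson conjecture and base change

`Ω` is an algebraic closure of `ℚ`, number fields are the finite extensions of `ℚ` in `Ω`. Let
`L / k` be an abelian extension with group `G`. For a number field `K ⊇ k` and a character `χ` of
`G` let `X K χ` be `L^*(χ⁻¹, 1 - m)` for the restriction of `χ` to `Gal(LK/K) ⊆ G`, divided by the
`χ`-component of the regulator of `LK` in bases over `ℚ[Gal(LK/K)]`. Beilinson's equality holds for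
`LK / K` if and only if `X K` is the family of the values of a unit of `ℚ[G]`.
-/

set_option autoImplicit false

namespace Pool.Agent.Results.MP_a93ca1_nt.BaseChange

open IntermediateField Pool.Agent.Q317.ST Pool.Agent.Q317.ST.Perm Pool.Agent.Q317.LD

attribute [-instance] DivisionRing.toRatAlgebra

variable {Ω : Type} [Field Ω] [Algebra ℚ Ω]

/-- `F` is a number field containing `k` that has no embedding in `ℝ` and, for the primes `p ≤ n`,
no embedding in `ℚ_p`. -/
def NoSmallPlaces (k : IntermediateField ℚ Ω) (n : ℕ) (F : IntermediateField ℚ Ω) : Prop :=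
  FiniteDimensional ℚ F ∧ k ≤ F ∧ IsEmpty (F →+* ℝ) ∧
    ∀ (p : ℕ) [Fact p.Prime], p ≤ n → IsEmpty (F →+* ℚ_[p])

/-- families of nonzero complex numbers indexed by the characters of `G` -/
abbrev Val (G : Type) [CommGroup G] : Type := (G →* ℂˣ) → ℂˣ

/-- the values of a unit of `ℚ[G]` at the characters -/
noncomputable def values (G : Type) [CommGroup G] : (MonoidAlgebra ℚ G)ˣ →* Val G where
  toFun u χ := Units.map (MonoidAlgebra.lift ℚ ℂ G ((Units.coeHom ℂ).comp χ) :
    MonoidAlgebra ℚ G →* ℂ) u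
  map_one' := by
    funext χ
    exact map_one _
  map_mul' u u' := by
    funext χ
    exact map_mul _ _ _

/-- the families of values of units of `ℚ[G]` -/
noncomputable def rational (G : Type) [CommGroup G] : Subgroup (Val G) := (values G).range

/-- the families that have a power in `rational G` -/
noncomputable def radical (G : Type) [CommGroup G] : Subgroup (Val G) where
  carrier := {x | ∃ D : ℕ, D ≠ 0 ∧ x ^ D ∈ rational G}
  one_mem' := ⟨1, one_ne_zero, by rw [one_pow]; exact one_mem _⟩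
  mul_mem' := by
    rintro x y ⟨D, hD, hx⟩ ⟨D', hD', hy⟩
    refine ⟨D * D', mul_ne_zero hD hD', ?_⟩
    rw [mul_pow, pow_mul, mul_comm D D', pow_mul y]
    exact mul_mem (pow_mem hx _) (pow_mem hy _)
  inv_mem' := by
    rintro x ⟨D, hD, hx⟩
    exact ⟨D, hD, by rw [inv_pow]; exact inv_mem hx⟩

/-- `g`, a function on the finite extensions `K` of `k`, respects the relations between permutation
characters up to the subgroup `H`: if `∑ n_i π_i = 0` on the absolute Galois group of `k`, where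
`π_i (σ)` is the number of the `k`-embeddings of `K_i` fixed by `σ`, then `∏ g (K_i) ^ n_i ∈ H`. -/
def RespectsModulo {U : Type} [CommGroup U] (k : IntermediateField ℚ Ω) (H : Subgroup U)
    (g : IntermediateField ℚ Ω → U) : Prop :=
  ∀ (ι : Type) [Fintype ι] (n : ι → ℤ) (K : ι → IntermediateField ℚ Ω),
    (∀ i, FiniteDimensional ℚ (K i) ∧ k ≤ K i) →
    (∀ σ ∈ k.fixingSubgroup, ∑ i, n i * (fix k (K i) σ : ℤ) = 0) → ∏ i, g (K i) ^ n i ∈ H

/-- the class of `g K` modulo `H` -/
def cls {U : Type} [CommGroup U] (H : Subgroup U) (g : IntermediateField ℚ Ω → U)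
    (K : IntermediateField ℚ Ω) : Additive (U ⧸ H) := Additive.ofMul (QuotientGroup.mk (g K))

theorem cls_zero {U : Type} [CommGroup U] {H : Subgroup U} {g : IntermediateField ℚ Ω → U}
    {K : IntermediateField ℚ Ω} : cls H g K = 0 ↔ g K ∈ H := by
  unfold cls
  rw [ofMul_eq_zero, QuotientGroup.eq_one_iff]

theorem cls_sum {U : Type} [CommGroup U] (H : Subgroup U) (g : IntermediateField ℚ Ω → U)
    (ι : Type) [Fintype ι] (m : ι → ℤ) (K : ι → IntermediateField ℚ Ω) :
    ∑ i, m i • cls H g (K i) = 0 ↔ ∏ i, g (K i) ^ m i ∈ H := by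
  have h1 : ∑ i, m i • cls H g (K i) = Additive.ofMul (QuotientGroup.mk (∏ i, g (K i) ^ m i)) := by
    have h4 : (QuotientGroup.mk (∏ i, g (K i) ^ m i) : U ⧸ H) =
        ∏ i, (QuotientGroup.mk (g (K i)) : U ⧸ H) ^ m i := by
      rw [← QuotientGroup.mk'_apply H, map_prod]
      exact Finset.prod_congr rfl fun i _ => map_zpow (QuotientGroup.mk' H) _ _
    rw [h4, ofMul_prod]
    rfl
  rw [h1, ofMul_eq_zero, QuotientGroup.eq_one_iff]

theorem RespectsModulo.respects {U : Type} [CommGroup U] {k : IntermediateField ℚ Ω}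
    {H : Subgroup U} {g : IntermediateField ℚ Ω → U} (h : RespectsModulo k H g) :
    Respects k (cls H g) := by
  intro ι _ m K hK hrel
  exact (cls_sum H g ι m K).2 (h ι m K hK hrel)

theorem RespectsModulo.mono {U : Type} [CommGroup U] {k : IntermediateField ℚ Ω}
    {H H' : Subgroup U} (hH : H ≤ H') {g : IntermediateField ℚ Ω → U}
    (h : RespectsModulo k H g) : RespectsModulo k H' g := by
  intro ι _ m K hK hrel
  exact hH (h ι m K hK hrel)

theorem rational_le {G : Type} [CommGroup G] : rational G ≤ radical G := fun x hx =>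
  ⟨1, one_ne_zero, by rwa [pow_one]⟩

theorem radical_closed {G : Type} [CommGroup G] {x : Val G} {D : ℕ} (hD : D ≠ 0)
    (h : x ^ D ∈ radical G) : x ∈ radical G := by
  obtain ⟨D', hD', h'⟩ := h
  exact ⟨D * D', mul_ne_zero hD hD', by rwa [pow_mul]⟩

theorem realOver_unique {k K : IntermediateField ℚ Ω} (hkK : k ≤ K) {v : k →+* ℝ}
    (hv : ∀ w : k →+* ℝ, w = v) : realOver k K v = Nat.card (K →+* ℝ) := by
  unfold realOver
  refine Nat.card_congr (Equiv.subtypeUnivEquiv fun ρ x hx => ?_)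
  exact congrArg (fun t : k →+* ℝ => t ⟨x, hx⟩) (hv (ρ.comp (inclusion hkK).toRingHom))

theorem realOver_empty {k K : IntermediateField ℚ Ω} (h : IsEmpty (K →+* ℝ)) (v : k →+* ℝ) :
    realOver k K v = 0 := by
  unfold realOver
  have : IsEmpty {ρ : K →+* ℝ // ∀ (x : K) (hx : (x : Ω) ∈ k), ρ x = v ⟨x, hx⟩} :=
    ⟨fun ρ => h.false ρ.1⟩
  exact Nat.card_of_isEmpty

theorem result (Ω : Type) [Field Ω] [Algebra ℚ Ω] [IsAlgClosure ℚ Ω] (k : IntermediateField ℚ Ω)
    [FiniteDimensional ℚ k] (G : Type) [CommGroup G] [Finite G]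
    (X : IntermediateField ℚ Ω → Val G) (hX : RespectsModulo k (rational G) X) :
    (∀ N n : ℕ, (∀ F, Large k N n F → X F ∈ rational G) → X k ∈ rational G) ∧
    (∀ n : ℕ, (∀ F, NoSmallPlaces k n F → X F ∈ radical G) →
      (∀ K : IntermediateField ℚ Ω, FiniteDimensional ℚ K → k ≤ K → IsEmpty (K →+* ℝ) →
        X K ∈ radical G) ∧
      (Nat.card (k →+* ℝ) = 1 → ∀ K : IntermediateField ℚ Ω, FiniteDimensional ℚ K → k ≤ K →
        X K / X k ^ Nat.card (K →+* ℝ) ∈ radical G) ∧
      (Nat.card (k →+* ℝ) = 1 → ∀ K₀ : IntermediateField ℚ Ω, FiniteDimensional ℚ K₀ → k ≤ K₀ →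
        Nonempty (K₀ →+* ℝ) → X K₀ ∈ radical G →
        ∀ K : IntermediateField ℚ Ω, FiniteDimensional ℚ K → k ≤ K → X K ∈ radical G)) := by
  constructor
  · intro N n h
    have h1 := mem_closure k hX.respects N n
    have h2 : AddSubgroup.closure {x | ∃ F, Large k N n F ∧ cls (rational G) X F = x} ≤ ⊥ := by
      rw [AddSubgroup.closure_le]
      rintro x ⟨F, hF, rfl⟩
      exact cls_zero.2 (h F hF)
    exact cls_zero.1 (h2 h1)
  intro n h
  let J := {p : Fin (n + 1) // (p : ℕ).Prime}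
  have i0 : ∀ j : J, Fact ((j.1 : ℕ).Prime) := fun j => ⟨j.2⟩
  let Q : J → Type := fun j => ℚ_[(j.1 : ℕ)]
  have hE : ∀ j : J, CharZero (Q j) := fun j => inferInstance
  have hnE : ∀ j : J, StarkNumbers.NonSq (Q j) := fun j => exists_nonsq _
  have hf : Respects k (cls (radical G) X) := (hX.mono rational_le).respects
  have h0 : ∀ F : IntermediateField ℚ Ω, FiniteDimensional ℚ F → k ≤ F → IsEmpty (F →+* ℝ) →
      (∀ j, IsEmpty (F →+* Q j)) → cls (radical G) X F = 0 := by
    intro F hF hkF hR hj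
    refine cls_zero.2 (h F ⟨hF, hkF, hR, ?_⟩)
    intro p hp hpn
    exact hj ⟨⟨p, by omega⟩, hp.out⟩
  have key : ∀ (ι : Type) [Fintype ι] (m : ι → ℤ) (K : ι → IntermediateField ℚ Ω),
      (∀ i, FiniteDimensional ℚ (K i) ∧ k ≤ K i) →
      (∀ v : k →+* ℝ, ∑ i, m i * (realOver k (K i) v : ℤ) = 0) →
      ∏ i, X (K i) ^ m i ∈ radical G := by
    intro ι _ m K hK hr
    obtain ⟨D, hD, h1⟩ := main_real hf Q hE hnE h0 ι m K hK hr
    have h2 : ∑ i, ((D : ℤ) * m i) • cls (radical G) X (K i) = 0 := by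
      rw [← h1, Finset.smul_sum]
      refine Finset.sum_congr rfl fun i _ => ?_
      exact (mul_smul (D : ℤ) (m i) (cls (radical G) X (K i))).trans (natCast_zsmul _ D)
    rw [cls_sum] at h2
    refine radical_closed hD ?_
    rw [← Finset.prod_pow]
    convert h2 using 2 with i
    rw [← zpow_natCast, ← zpow_mul, mul_comm]
  have pair : ∀ K K' : IntermediateField ℚ Ω, FiniteDimensional ℚ K → k ≤ K →
      FiniteDimensional ℚ K' → k ≤ K' → ∀ a b : ℤ,
      (∀ v : k →+* ℝ, a * (realOver k K v : ℤ) + b * (realOver k K' v : ℤ) = 0) →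
      X K ^ a * X K' ^ b ∈ radical G := by
    intro K K' hK hk hK' hk' a b hr
    have h1 := key Bool (fun t => cond t a b) (fun t => cond t K K') (fun t => by
        cases t
        · exact ⟨hK', hk'⟩
        · exact ⟨hK, hk⟩) (fun w => by
        rw [Fintype.sum_bool]
        exact hr w)
    rw [Fintype.prod_bool] at h1
    exact h1
  refine ⟨?_, ?_, ?_⟩
  · intro K hK hk hR
    have h1 := key Unit (fun _ => 1) (fun _ => K) (fun _ => ⟨hK, hk⟩) (fun v => by
      simp [realOver_empty hR v])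
    simpa using h1
  · intro hcard K hK hk
    obtain ⟨hsub, ⟨v⟩⟩ := Nat.card_eq_one_iff_unique.1 hcard
    have hv : ∀ w : k →+* ℝ, w = v := fun w => Subsingleton.elim w v
    have h1 := pair K k hK hk inferInstance le_rfl 1 (-(Nat.card (K →+* ℝ) : ℤ)) (fun w => by
      rw [hv w, realOver_unique hk hv, realOver_unique le_rfl hv, hcard]
      ring)
    rw [zpow_one, zpow_neg, zpow_natCast] at h1
    rw [div_eq_mul_inv]
    exact h1
  · intro hcard K₀ hK₀ hk₀ hne h₀ K hK hk
    obtain ⟨hsub, ⟨v⟩⟩ := Nat.card_eq_one_iff_unique.1 hcard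
    have hv : ∀ w : k →+* ℝ, w = v := fun w => Subsingleton.elim w v
    have h1 := pair K K₀ hK hk hK₀ hk₀ (Nat.card (K₀ →+* ℝ) : ℤ) (-(Nat.card (K →+* ℝ) : ℤ))
      (fun w => by
        rw [hv w, realOver_unique hk hv, realOver_unique hk₀ hv]
        ring)
    have h2 := (radical G).mul_mem h1 ((radical G).zpow_mem h₀ (Nat.card (K →+* ℝ) : ℤ))
    rw [mul_assoc, ← zpow_add, neg_add_cancel, zpow_zero, mul_one, zpow_natCast] at h2
    have := finite_real K₀
    exact radical_closed (Nat.card_pos.ne') h2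

end Pool.Agent.Results.MP_a93ca1_nt.BaseChange
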