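import Pool.Agent.Q285.EQ.Basic

/-!
# The equivariant Beilinson conjecture and exponentials of smoothed sums of Frobenius elements

`K` a number field, `S` a finite set of finite places, `φ v ∈ A` the Frobenius elements (`A = Gal(L/K)` written
additively). The leading coefficients `L*(ψ, 1 - k)` of all characters, at any integer `1 - k ≤ 0`, are read off
from the sums `𝒮_a(T) = ∑_{(v, n) : n φ v = a} (Nv^{n(k-1)}/n) e^{iγ n log Nv/T}/Γ(1 + n log Nv/T)`, and the
statement that they differ from given complex numbers `ρ ψ` by the values of an element of `ℚ[A]` is equivalent to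
a statement on the distance of explicit elements of `ℂ[A]` from `ℤ[A]`, along one sequence `T_i → ∞`.
-/

set_option autoImplicit false

namespace Pool.Agent.Results.MP_a93ca1_nt.RationalGroupRing

open Filter Topology Asymptotics NumberField IsDedekindDomain Pool.Agent.Q45.ML

section

variable {K : Type} [Field K] [NumberField K] {S : Finset (HeightOneSpectrum (𝓞 K))}
  {A : Type} [AddCommGroup A]

/-- the finite places of `K` outside `S` -/
abbrev Pl (K : Type) [Field K] [NumberField K] (S : Finset (HeightOneSpectrum (𝓞 K))) : Type :=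
  {v : HeightOneSpectrum (𝓞 K) // v ∉ S}

/-- the number of elements of the residue field -/
noncomputable def norm (v : Pl K S) : ℝ := Ideal.absNorm v.1.asIdeal

/-- the weight `(Nv^{n(k-1)}/n) e^{iγ n log Nv/T} / Γ(1 + n log Nv/T)` of the pair `(v, n)`, `n = x.2 + 1` -/
noncomputable def weight (k : ℕ) (γ T : ℝ) (x : Pl K S × ℕ) : ℂ :=
  (norm x.1 : ℂ) ^ ((x.2 + 1) * (k - 1)) / (x.2 + 1) *
    (Complex.exp ((γ * ((x.2 + 1) * Real.log (norm x.1) / T) : ℝ) * Complex.I) /
      (Real.Gamma (1 + (x.2 + 1) * Real.log (norm x.1) / T) : ℂ))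

/-- the coefficient at `a` of the group ring element `∑_{v, n} weight(v, n) [n φ v]` -/
noncomputable def coef (φ : Pl K S → A) (k : ℕ) (γ T : ℝ) (a : A) : ℂ :=
  ∑' x : {x : Pl K S × ℕ // (x.2 + 1) • φ x.1 = a}, weight k γ T (x : Pl K S × ℕ)

/-- the constant `Λ(γ) = ∫_0^∞ (e^{-t} - e^{iγt}/Γ(1+t)) dt/t` -/
noncomputable def Lam (γ : ℝ) : ℂ := Pool.Agent.W187.UR.Lam γ

/-- `T^m e^{-mΛ} exp(∑_b coef b ψ(b))` -/
noncomputable def val [Fintype A] (φ : Pl K S → A) (k : ℕ) (γ T : ℝ) (m : ℤ) (ψ : AddChar A ℂ) : ℂ :=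
  (T : ℂ) ^ m * Complex.exp (-(m * Lam γ)) * Complex.exp (∑ b, coef φ k γ T b * ψ b)

/-- the element of `ℂ[A]` with value `f ψ` at every character `ψ` -/
noncomputable def element [Fintype A] (f : AddChar A ℂ → ℂ) (a : A) : ℂ :=
  1 / Fintype.card A * ∑ ψ : AddChar A ℂ, f ψ * ψ (-a)

/-- `ℤ[A]` in `ℂ[A]` -/
def integral (A : Type) : Set (A → ℂ) := Set.range fun (x : A → ℤ) (a : A) => (x a : ℂ)

theorem weight_eq {k : ℕ} (hk : 1 ≤ k) (γ T : ℝ) (x : Pl K S × ℕ) :
    weight k γ T x = Pool.Agent.Q285.EQ.ker (fun v : Pl K S => norm v) (1 - k) γ T x := by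
  unfold weight Pool.Agent.Q285.EQ.ker
  congr 1
  obtain ⟨j, rfl⟩ : ∃ j, k = j + 1 := ⟨k - 1, by omega⟩
  have h1 : (((x.2 + 1 : ℝ) * (1 - ((j + 1 : ℕ) : ℝ)) : ℝ) : ℂ) = -((((x.2 + 1) * j : ℕ)) : ℂ) := by
    push_cast
    ring
  rw [h1, Complex.cpow_neg, Complex.cpow_natCast, Nat.add_sub_cancel]
  have h0 : (norm x.1 : ℂ) ≠ 0 := by
    have := two_le_nrm x.1.1
    have h2 : (0 : ℝ) < norm x.1 := by
      unfold norm
      unfold nrm at this
      linarith
    exact_mod_cast h2.ne'
  have h2 : ((x.2 : ℂ) + 1) ≠ 0 := Nat.cast_add_one_ne_zero _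
  field_simp

theorem coef_eq (φ : Pl K S → A) {k : ℕ} (hk : 1 ≤ k) (γ T : ℝ) (a : A) :
    coef φ k γ T a = Pool.Agent.Q285.EQ.coef (fun v : Pl K S => norm v) φ (1 - k) γ T a := by
  unfold coef Pool.Agent.Q285.EQ.coef
  simp only [weight_eq hk]

theorem two_le (v : Pl K S) : 2 ≤ norm v := two_le_nrm v.1

theorem summ {σ : ℝ} (hσ : 1 < σ) : Summable fun v : Pl K S => norm v ^ (-σ) :=
  (nrm_summable hσ).subtype _

omit [AddCommGroup A] in
theorem closed_integral [Fintype A] : IsClosed (integral A) := by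
  have h : integral A = Set.pi Set.univ fun _ : A => Set.range ((↑) : ℤ → ℂ) := by
    ext x
    simp only [integral, Set.mem_range, Set.mem_pi, Set.mem_univ, true_imp_iff]
    constructor
    · rintro ⟨y, rfl⟩ a
      exact ⟨y a, rfl⟩
    · intro hx
      choose y hy using hx
      exact ⟨y, funext hy⟩
  rw [h]
  exact isClosed_set_pi fun _ _ => Complex.isClosedEmbedding_intCast.isClosed_range

/-- Fourier inversion -/
theorem value_element [Fintype A] (f : AddChar A ℂ → ℂ) (ψ : AddChar A ℂ) :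
    ∑ a, element f a * ψ a = f ψ := by
  have h0 : (Fintype.card A : ℂ) ≠ 0 := by exact_mod_cast Fintype.card_ne_zero
  have h1 : ∀ χ : AddChar A ℂ, ∑ a, χ (-a) * ψ a = if ψ = χ then (Fintype.card A : ℂ) else 0 := by
    intro χ
    have h2 : ∀ a, χ (-a) * ψ a = (χ⁻¹ * ψ) a := fun a => by
      rw [AddChar.mul_apply, AddChar.inv_apply]
    simp only [h2]
    rw [AddChar.sum_eq_ite]
    congr 1
    exact propext ((inv_mul_eq_one (a := χ) (b := ψ)).trans eq_comm)
  unfold element
  calc ∑ a, (1 / (Fintype.card A : ℂ) * ∑ χ : AddChar A ℂ, f χ * χ (-a)) * ψ a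
      = 1 / (Fintype.card A : ℂ) * ∑ χ : AddChar A ℂ, f χ * ∑ a, χ (-a) * ψ a := by
        simp only [Finset.mul_sum, Finset.sum_mul]
        rw [Finset.sum_comm]
        refine Finset.sum_congr rfl fun χ _ => Finset.sum_congr rfl fun a _ => ?_
        ring
    _ = f ψ := by
        simp only [h1, mul_ite, mul_zero, Finset.sum_ite_eq, Finset.mem_univ, if_true]
        field_simp

theorem element_value [Fintype A] (x : A → ℂ) : (element fun ψ => ∑ b, x b * ψ b) = x := by
  classical
  have h0 : (Fintype.card A : ℂ) ≠ 0 := by exact_mod_cast Fintype.card_ne_zero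
  funext a
  unfold element
  have h1 : ∀ b : A, ∑ χ : AddChar A ℂ, χ b * χ (-a) = if b = a then (Fintype.card A : ℂ) else 0 := by
    intro b
    have h2 : ∀ χ : AddChar A ℂ, χ b * χ (-a) = χ (b - a) := fun χ => by
      rw [sub_eq_add_neg, AddChar.map_add_eq_mul]
    simp only [h2]
    rw [AddChar.sum_apply_eq_ite]
    simp only [sub_eq_zero]
  calc 1 / (Fintype.card A : ℂ) * ∑ χ : AddChar A ℂ, (∑ b, x b * χ b) * χ (-a)
      = 1 / (Fintype.card A : ℂ) * ∑ b, x b * ∑ χ : AddChar A ℂ, χ b * χ (-a) := by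
        simp only [Finset.mul_sum, Finset.sum_mul]
        rw [Finset.sum_comm]
        refine Finset.sum_congr rfl fun χ _ => Finset.sum_congr rfl fun a _ => ?_
        ring
    _ = x a := by
        simp only [h1, mul_ite, mul_zero, Finset.sum_ite_eq', Finset.mem_univ, if_true]
        field_simp

end

theorem result {K : Type} [Field K] [NumberField K] (S : Finset (HeightOneSpectrum (𝓞 K)))
    {A : Type} [AddCommGroup A] [Fintype A] (φ : Pl K S → A) (L : AddChar A ℂ → ℂ → ℂ)
    (k : ℕ) (hk : 1 ≤ k)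
    (hmer : ∀ ψ, ∀ x : ℝ, 1 - (k : ℝ) ≤ x → x ≤ 1 → MeromorphicAt (L ψ) (x : ℂ))
    (hL : ∀ ψ : AddChar A ℂ, ∀ s : ℂ, 1 < s.re →
      HasProd (fun v : Pl K S => (1 - ψ (φ v) * (norm v : ℂ) ^ (-s))⁻¹) (L ψ s))
    {γ : ℝ} (hγ : Real.pi / 2 < γ) :
    -- absolute convergence
    (∀ T : ℝ, 0 < T → Summable fun x : Pl K S × ℕ => ‖weight k γ T x‖) ∧
    -- orders and leading coefficients at `1 - k`, all characters
    ∃ m : AddChar A ℂ → ℤ, (∀ ψ, meromorphicOrderAt (L ψ) (1 - k) = m ψ) ∧
      (∀ ψ, (fun T : ℝ => val φ k γ T (m ψ) ψ - meromorphicTrailingCoeffAt (L ψ) (1 - k)) =O[atTop]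
        (fun T : ℝ => 1 / T)) ∧
      -- comparison with given non-zero numbers `ρ ψ`
      ∀ ρ : AddChar A ℂ → ℂ, (∀ ψ, ρ ψ ≠ 0) →
        (∀ D : ℕ, List.TFAE [
          ∃ x : A → ℤ, ∀ ψ, D * meromorphicTrailingCoeffAt (L ψ) (1 - k) = ρ ψ * ∑ a, x a * ψ a,
          Tendsto (fun T : ℝ => Metric.infDist (D • element fun ψ => val φ k γ T (m ψ) ψ / ρ ψ)
            (integral A)) atTop (𝓝 0),
          ∃ t : ℕ → ℝ, Tendsto t atTop atTop ∧ Tendsto (fun i => Metric.infDist
            (D • element fun ψ => val φ k γ (t i) (m ψ) ψ / ρ ψ) (integral A)) atTop (𝓝 0)]) ∧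
        ((∃ x : A → ℚ, ∀ ψ, meromorphicTrailingCoeffAt (L ψ) (1 - k) = ρ ψ * ∑ a, x a * ψ a) ↔
          ∃ D : ℕ, 0 < D ∧ ∃ t : ℕ → ℝ, Tendsto t atTop atTop ∧ Tendsto (fun i => Metric.infDist
            (D • element fun ψ => val φ k γ (t i) (m ψ) ψ / ρ ψ) (integral A)) atTop (𝓝 0)) := by
  have hs0 : ((1 : ℝ) - k) < 0 + 1 := by
    have : (1 : ℝ) ≤ k := by exact_mod_cast hk
    linarith
  have hcast : (((1 : ℝ) - k : ℝ) : ℂ) = 1 - k := by push_cast; ring
  have hlaw : ∀ ψ : AddChar A ℂ, ∃ m : ℤ, meromorphicOrderAt (L ψ) (1 - k) = m ∧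
      (fun T : ℝ => val φ k γ T m ψ - meromorphicTrailingCoeffAt (L ψ) (1 - k)) =O[atTop]
        (fun T : ℝ => 1 / T) := by
    intro ψ
    have E := Pool.Agent.Q285.EQ.eul_char (q := fun v : Pl K S => norm v) φ two_le
      (fun σ hσ => summ hσ) ψ
    obtain ⟨m, l, h1, h2, h3⟩ := E.lawC (F := L ψ) (s₀ := 1 - k) hs0
      (fun x hx hx1 => hmer ψ x hx (by linarith))
      (fun s hs => by simpa using hL ψ s (by linarith)) hγ
    rw [hcast] at h1 h2
    refine ⟨m, h1, ?_⟩
    have h5 := (prod_rate h3).const_mul_left (Complex.exp (-(m * Lam γ)))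
    rw [h2] at h5
    refine h5.congr' ?_ EventuallyEq.rfl
    filter_upwards [eventually_gt_atTop 0] with T hT
    have h6 : ∑ b, coef φ k γ T b * ψ b = smooth (fun v : Pl K S => norm v)
        (fun v (_ : Fin 1) => ψ (φ v)) (1 - k) γ T := by
      rw [← Pool.Agent.Q285.EQ.sum_coef φ two_le (fun σ hσ => summ hσ) (1 - k) γ hT ψ]
      simp only [coef_eq φ hk]
    unfold val
    rw [h6]
    have h7 : Complex.exp (-(m * Lam γ)) * Complex.exp (m * Lam γ) = 1 := by
      rw [← Complex.exp_add, neg_add_cancel, Complex.exp_zero]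
    unfold Lam at h7 ⊢
    linear_combination (-meromorphicTrailingCoeffAt (L ψ) (1 - k)) * h7
  choose m hm hrate using hlaw
  refine ⟨fun T hT => ?_, m, hm, hrate, fun ρ hρ => ?_⟩
  · simp only [weight_eq hk]
    exact Pool.Agent.Q285.EQ.ker_summable φ two_le (fun σ hσ => summ hσ) (1 - k) γ hT
  · have hlim : Tendsto (fun T : ℝ => element fun ψ => val φ k γ T (m ψ) ψ / ρ ψ) atTop
        (𝓝 (element fun ψ => meromorphicTrailingCoeffAt (L ψ) (1 - k) / ρ ψ)) := by
      refine tendsto_pi_nhds.2 fun a => ?_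
      unfold element
      refine Tendsto.const_mul _ (tendsto_finsetSum _ fun ψ _ => ?_)
      exact ((tendsto_of_rate (hrate ψ)).div_const _).mul_const _
    have key : ∀ D : ℕ, List.TFAE [
          ∃ x : A → ℤ, ∀ ψ, D * meromorphicTrailingCoeffAt (L ψ) (1 - k) = ρ ψ * ∑ a, x a * ψ a,
          Tendsto (fun T : ℝ => Metric.infDist (D • element fun ψ => val φ k γ T (m ψ) ψ / ρ ψ)
            (integral A)) atTop (𝓝 0),
          ∃ t : ℕ → ℝ, Tendsto t atTop atTop ∧ Tendsto (fun i => Metric.infDist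
            (D • element fun ψ => val φ k γ (t i) (m ψ) ψ / ρ ψ) (integral A)) atTop (𝓝 0)] := by
      intro D
      have h1 := closed_tfae (closed_integral (A := A)) (Set.range_nonempty _) (hlim.const_smul D)
      have e : (D • element fun ψ => meromorphicTrailingCoeffAt (L ψ) (1 - k) / ρ ψ) ∈ integral A ↔
          ∃ x : A → ℤ, ∀ ψ, D * meromorphicTrailingCoeffAt (L ψ) (1 - k) = ρ ψ * ∑ a, x a * ψ a := by
        constructor
        · rintro ⟨x, hx⟩
          refine ⟨x, fun ψ => ?_⟩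
          have h2 := value_element (fun ψ => meromorphicTrailingCoeffAt (L ψ) (1 - k) / ρ ψ) ψ
          have h3 : ∑ a, (x a : ℂ) * ψ a = D * (meromorphicTrailingCoeffAt (L ψ) (1 - k) / ρ ψ) := by
            rw [← h2, Finset.mul_sum]
            refine Finset.sum_congr rfl fun a _ => ?_
            have h4 := congrFun hx a
            simp only [Pi.smul_apply, nsmul_eq_mul] at h4
            rw [h4]
            ring
          rw [h3]
          have := hρ ψ
          field_simp
        · rintro ⟨x, hx⟩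
          refine ⟨x, ?_⟩
          have h2 : (fun ψ => ∑ a, (x a : ℂ) * ψ a) =
              fun ψ => D * (meromorphicTrailingCoeffAt (L ψ) (1 - k) / ρ ψ) := by
            funext ψ
            have h3 := hx ψ
            have h4 := hρ ψ
            rw [eq_comm, ← mul_div_assoc, div_eq_iff h4, h3]
            ring
          have h5 := element_value fun a => (x a : ℂ)
          rw [h2] at h5
          refine h5.symm.trans ?_
          funext a
          simp only [element, Pi.smul_apply, nsmul_eq_mul]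
          simp only [Finset.mul_sum]
          refine Finset.sum_congr rfl fun ψ _ => ?_
          ring
      rw [e] at h1
      exact h1
    refine ⟨key, ?_, ?_⟩
    · rintro ⟨x, hx⟩
      have hden : ∀ a, ∃ y : ℤ, ((∏ b, (x b).den : ℕ) : ℚ) * x a = y := by
        intro a
        obtain ⟨c, hc⟩ := Finset.dvd_prod_of_mem (fun b => (x b).den) (Finset.mem_univ a)
        refine ⟨c * (x a).num, ?_⟩
        have h1 : ((x a).den : ℚ) * x a = (x a).num := by
          rw [mul_comm]; exact Rat.mul_den_eq_num (x a)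
        rw [hc]
        push_cast
        linear_combination (c : ℚ) * h1
      choose y hy using hden
      refine ⟨∏ b, (x b).den, Finset.prod_pos fun b _ => (x b).den_pos, ?_⟩
      have h1 : (∃ z : A → ℤ, ∀ ψ, ((∏ b, (x b).den : ℕ) : ℂ) *
          meromorphicTrailingCoeffAt (L ψ) (1 - k) = ρ ψ * ∑ a, z a * ψ a) := by
        refine ⟨y, fun ψ => ?_⟩
        rw [hx ψ, mul_left_comm, Finset.mul_sum]
        congr 1
        refine Finset.sum_congr rfl fun a _ => ?_
        have h2 : (((∏ b, (x b).den : ℕ) : ℂ)) * (x a : ℂ) = (y a : ℂ) := by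
          have := hy a
          exact_mod_cast congrArg ((↑) : ℚ → ℂ) this
        rw [← h2]
        ring
      exact ((key _).out 0 2).1 h1
    · rintro ⟨D, hD, ht⟩
      have h1 : (∃ x : A → ℤ, ∀ ψ, D * meromorphicTrailingCoeffAt (L ψ) (1 - k) =
          ρ ψ * ∑ a, x a * ψ a) := ((key D).out 0 2).2 ht
      obtain ⟨x, hx⟩ := h1
      have hDc : (D : ℂ) ≠ 0 := by exact_mod_cast hD.ne'
      refine ⟨fun a => x a / D, fun ψ => ?_⟩
      have h2 := hx ψ
      push_cast
      have h3 : ∑ a, (x a : ℂ) / D * ψ a = (∑ a, (x a : ℂ) * ψ a) / D := by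
        rw [Finset.sum_div]
        refine Finset.sum_congr rfl fun a _ => ?_
        ring
      rw [h3]
      field_simp
      linear_combination h2

end Pool.Agent.Results.MP_a93ca1_nt.RationalGroupRing
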